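import Mathlib

set_option autoImplicit false

namespace Pool.Agent.H.MP_7f9305_lc

open Relation

/-- Parallel rewriting: every symbol `X` is replaced by a word `y` with `ok pre X y`, where `pre`
is the part of the old word to the left of this occurrence of `X`. -/
inductive Par {V : Type} (ok : List V → V → List V → Prop) : List V → List V → List V → Prop
  | nil (pre : List V) : Par ok pre [] []
  | cons {pre : List V} {X : V} {y u v : List V} :
      ok pre X y → Par ok (pre ++ [X]) u v → Par ok pre (X :: u) (y ++ v)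

/-- Terminal words derivable from the axiom `w`. -/
def Lang {T N : Type} (step : List (T ⊕ N) → List (T ⊕ N) → Prop) (w : List (T ⊕ N)) :
    Set (List T) :=
  {x | ReflTransGen step w (x.map Sum.inl)}

/-- ET0L languages. -/
def IsET0L {T : Type} (L : Set (List T)) : Prop :=
  ∃ (N : Type) (_ : Finite N) (n : ℕ) (P : Fin (n + 1) → Finset ((T ⊕ N) × List (T ⊕ N)))
    (w : List (T ⊕ N)), w ≠ [] ∧ (∀ h X, ∃ y, (X, y) ∈ P h) ∧
    L = Lang (fun u v => u ≠ [] ∧ ∃ h, Par (fun _ X y => (X, y) ∈ P h) [] u v) w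

/-- Left forbidding E0L languages. -/
def IsLF {T : Type} (L : Set (List T)) : Prop :=
  ∃ (N : Type) (_ : Finite N) (P : Finset ((T ⊕ N) × List (T ⊕ N) × Finset N))
    (w : List (T ⊕ N)), w ≠ [] ∧ L = Lang (fun u v => u ≠ [] ∧
      Par (fun pre X y => ∃ W, (X, y, W) ∈ P ∧ ∀ Z ∈ W, Sum.inr Z ∉ pre) [] u v) w

/-- Left permitting E0L languages. -/
def IsLP {T : Type} (L : Set (List T)) : Prop :=
  ∃ (N : Type) (_ : Finite N) (P : Finset ((T ⊕ N) × List (T ⊕ N) × Finset N))
    (w : List (T ⊕ N)), w ≠ [] ∧ L = Lang (fun u v => u ≠ [] ∧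
      Par (fun pre X y => ∃ U, (X, y, U) ∈ P ∧ ∀ Z ∈ U, Sum.inr Z ∈ pre) [] u v) w

instance {α β : Type} [BEq α] [BEq β] [LawfulBEq α] [LawfulBEq β] : LawfulBEq (α ⊕ β) where
  rfl {a} := by
    rcases a with a | a
    · exact beq_self_eq_true a
    · exact beq_self_eq_true a
  eq_of_beq {a b} h := by
    rcases a with a | a <;> rcases b with b | b
    · exact congrArg _ (eq_of_beq (show (a == b) = true from h))
    · exact absurd h Bool.false_ne_true
    · exact absurd h Bool.false_ne_true
    · exact congrArg _ (eq_of_beq (show (a == b) = true from h))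

theorem Par.append {V : Type} {ok : List V → V → List V → Prop} {pre u v u' v' : List V}
    (h : Par ok pre u v) (h' : Par ok (pre ++ u) u' v') : Par ok pre (u ++ u') (v ++ v') := by
  induction h with
  | nil => simpa using h'
  | cons h1 _ ih =>
    rw [List.append_assoc]
    exact Par.cons h1 (ih (by simpa using h'))

theorem Par.split {V : Type} {ok : List V → V → List V → Prop} {u u' : List V} :
    ∀ {pre z : List V}, Par ok pre (u ++ u') z →
      ∃ v v', z = v ++ v' ∧ Par ok pre u v ∧ Par ok (pre ++ u) u' v' := by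
  induction u with
  | nil => intro pre z h; exact ⟨[], z, rfl, Par.nil _, by simpa using h⟩
  | cons X u ih =>
    intro pre z h
    cases h with
    | cons h1 h2 =>
      obtain ⟨v, v', rfl, h3, h4⟩ := ih h2
      exact ⟨_, v', (List.append_assoc _ _ _).symm, Par.cons h1 h3, by simpa using h4⟩

theorem Par.free {V : Type} {R : V → List V → Prop} {pre u v : List V}
    (h : Par (fun _ => R) pre u v) : ∀ pre', Par (fun _ => R) pre' u v := by
  induction h with
  | nil => exact fun _ => Par.nil _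
  | cons h1 _ ih => exact fun _ => Par.cons h1 (ih _)

theorem fin_bound {α : Type} [Finite α] (P : α → ℕ → Prop)
    (mono : ∀ a b b', b ≤ b' → P a b → P a b') (h : ∀ a, ∃ b, P a b) : ∃ B, ∀ a, P a B := by
  choose f hf using h
  obtain ⟨B, hB⟩ := (Set.finite_range f).bddAbove
  exact ⟨B, fun a => mono a _ _ (hB ⟨a, rfl⟩) (hf a)⟩

/-- Any factor with two letters `true` is long. -/
def Gap (k : ℕ) (x : List Bool) : Prop := ∀ y, y <:+: x → 2 ≤ y.count true → k ≤ y.length

section ET

variable {N H : Type} (R : H → Bool ⊕ N → List (Bool ⊕ N) → Prop)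

/-- Derivation along a list of tables. -/
def PD : List H → List (Bool ⊕ N) → List (Bool ⊕ N) → Prop
  | [], u, w => u = w
  | h :: τ, u, w => ∃ v, Par (fun _ => R h) [] u v ∧ PD τ v w

variable {R}

theorem PD.nil (τ : List H) : PD R τ [] [] := by
  induction τ with
  | nil => rfl
  | cons h τ ih => exact ⟨[], Par.nil _, ih⟩

theorem PD.append {τ : List H} : ∀ {u v u' v'}, PD R τ u v → PD R τ u' v' →
    PD R τ (u ++ u') (v ++ v') := by
  induction τ with
  | nil => intro u v u' v' h h'; exact congrArg₂ _ h h'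
  | cons h τ ih =>
    rintro u v u' v' ⟨a, h1, h2⟩ ⟨b, h3, h4⟩
    exact ⟨a ++ b, h1.append (h3.free _), ih h2 h4⟩

theorem PD.glue {τ : List H} {α : Type} (l : List α) (f : α → Bool ⊕ N) (g : α → List Bool)
    (h : ∀ p ∈ l, PD R τ [f p] ((g p).map .inl)) : PD R τ (l.map f) ((l.flatMap g).map .inl) := by
  induction l with
  | nil => exact PD.nil τ
  | cons p l ih =>
    have := (h p (by simp)).append (ih (fun q hq => h q (by simp [hq])))
    simpa using this

theorem PD.reach {τ : List H} : ∀ {u x}, PD R τ u x → x ≠ [] →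
    ReflTransGen (fun u v => u ≠ [] ∧ ∃ h, Par (fun _ => R h) [] u v) u x ∧ u ≠ [] := by
  induction τ with
  | nil => rintro u x rfl h; exact ⟨ReflTransGen.refl, h⟩
  | cons h τ ih =>
    rintro u x ⟨v, h1, h2⟩ hx
    obtain ⟨h3, h4⟩ := ih h2 hx
    have : u ≠ [] := by
      rintro rfl
      cases h1
      exact h4 rfl
    exact ⟨ReflTransGen.head ⟨this, h, h1⟩ h3, this⟩

theorem group {C : ℕ} (hC : ∀ h X y, R h X y → y.length ≤ C) {h : H} {τ : List H}
    {pre u v : List (Bool ⊕ N)} (hp : Par (fun _ => R h) pre u v) :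
    ∀ l : List ((Bool ⊕ N) × List Bool), l.map Prod.fst = v →
      (∀ p ∈ l, PD R τ [p.1] (p.2.map .inl)) →
      (∃ l' : List ((Bool ⊕ N) × List Bool), l'.map Prod.fst = u ∧
        l'.flatMap Prod.snd = l.flatMap Prod.snd ∧
        ∀ p ∈ l', PD R (h :: τ) [p.1] (p.2.map .inl) ∧ p.2.count true ≤ 1) ∨
      ∃ m, m <:+: l ∧ m.length ≤ C ∧ 2 ≤ (m.flatMap Prod.snd).count true := by
  induction hp with
  | nil =>
    intro l h1 _
    rw [List.map_eq_nil_iff.1 h1]
    exact Or.inl ⟨[], rfl, rfl, by simp⟩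
  | @cons pre X y u v h1 _ ih =>
    intro l h2 h3
    obtain ⟨l1, l2, rfl, rfl, rfl⟩ := List.map_eq_append_iff.1 h2
    by_cases h4 : 2 ≤ (l1.flatMap Prod.snd).count true
    · exact Or.inr ⟨l1, (List.prefix_append _ _).isInfix, by simpa using hC _ _ _ h1, h4⟩
    rcases ih l2 rfl (fun p hp => h3 p (by simp [hp])) with ⟨l', a1, a2, a3⟩ | ⟨m, a1, a2⟩
    · refine Or.inl ⟨(X, l1.flatMap Prod.snd) :: l', by simp [a1], by simp [a2], ?_⟩
      intro p hp
      rcases List.mem_cons.1 hp with rfl | hp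
      · exact ⟨⟨_, by simpa using Par.cons (pre := []) h1 (Par.nil _),
          PD.glue l1 _ _ (fun p hp => h3 p (by simp [hp]))⟩, by simp only; omega⟩
      · exact a3 p hp
    · exact Or.inr ⟨m, a1.trans (List.suffix_append _ _).isInfix, a2⟩

theorem level {C : ℕ} (hC : ∀ h X y, R h X y → y.length ≤ C) {u : List (Bool ⊕ N)}
    {x : List Bool}
    (hx : ReflTransGen (fun u v => u ≠ [] ∧ ∃ h, Par (fun _ => R h) [] u v) u (x.map .inl)) :
    ∃ (τ : List H) (l : List ((Bool ⊕ N) × List Bool)), l.flatMap Prod.snd = x ∧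
      (∀ p ∈ l, PD R τ [p.1] (p.2.map .inl) ∧ p.2.count true ≤ 1) ∧ (l.map Prod.fst = u ∨
        (ReflTransGen (fun u v => u ≠ [] ∧ ∃ h, Par (fun _ => R h) [] u v) u (l.map Prod.fst) ∧
          ∃ m, m <:+: l ∧ m.length ≤ C ∧ 2 ≤ (m.flatMap Prod.snd).count true)) := by
  induction hx using ReflTransGen.head_induction_on with
  | refl =>
    refine ⟨[], x.map (fun a => (.inl a, [a])), by simp [List.flatMap_map], ?_,
      Or.inl (by simp [Function.comp_def])⟩
    intro p hp
    obtain ⟨a, -, rfl⟩ := List.mem_map.1 hp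
    exact ⟨rfl, by cases a <;> simp⟩
  | head h1 _ ih =>
    obtain ⟨τ, l, a1, a2, a3 | ⟨a3, a4⟩⟩ := ih
    · obtain ⟨h2, h, h3⟩ := h1
      rcases group hC h3 l a3 (fun p hp => (a2 p hp).1) with ⟨l', b1, b2, b3⟩ | b
      · exact ⟨h :: τ, l', b2.trans a1, b3, Or.inl b1⟩
      · exact ⟨τ, l, a1, a2, Or.inr ⟨ReflTransGen.single ⟨h2, h, a3 ▸ h3⟩, b⟩⟩
    · exact ⟨τ, l, a1, a2, Or.inr ⟨ReflTransGen.head h1 a3, a4⟩⟩

variable (R) in
/-- The finite type of a list of tables. -/
def ty (τ : List H) (X : Bool ⊕ N) (j : Fin 2) : Prop :=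
  ∃ z : List Bool, PD R τ [X] (z.map .inl) ∧ z.count true = j

theorem count_le {α : Type} (l : List α) (g : α → List Bool) (h : ∀ p ∈ l, (g p).count true ≤ 1) :
    (l.flatMap g).count true ≤ l.length := by
  induction l with
  | nil => simp
  | cons p l ih =>
    have := h p (by simp)
    have := ih (fun q hq => h q (by simp [hq]))
    simp only [List.flatMap_cons, List.count_append, List.length_cons]
    omega

theorem len_le {α : Type} (l : List α) (g : α → List Bool) (B : ℕ)
    (h : ∀ p ∈ l, (g p).length ≤ B) : (l.flatMap g).length ≤ l.length * B := by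
  induction l with
  | nil => simp
  | cons p l ih =>
    have := h p (by simp)
    have := ih (fun q hq => h q (by simp [hq]))
    simp only [List.flatMap_cons, List.length_append, List.length_cons, add_mul]
    omega

theorem count_congr {α : Type} (l : List α) (g g' : α → List Bool)
    (h : ∀ p ∈ l, (g p).count true = (g' p).count true) :
    (l.flatMap g).count true = (l.flatMap g').count true := by
  induction l with
  | nil => simp
  | cons p l ih =>
    simp only [List.flatMap_cons, List.count_append, h p (by simp),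
      ih (fun q hq => h q (by simp [hq]))]

theorem infix_flatMap {α : Type} {m l : List α} (h : m <:+: l) (g : α → List Bool) :
    m.flatMap g <:+: l.flatMap g := by
  obtain ⟨a, b, rfl⟩ := h
  exact ⟨a.flatMap g, b.flatMap g, by simp⟩

end ET

/-- The exchange argument: a word with many letters `true` can be shrunk or stretched. -/
theorem exchange {L : Set (List Bool)} (hL : IsET0L L) : ∃ B : ℕ, ∀ x ∈ L, B < x.count true →
    (∃ x' ∈ L, x'.count true = x.count true ∧ ¬ Gap (B + 1) x') ∧
    (Gap (B + 1) x → ∀ M, ∃ x' ∈ L, x'.count true = x.count true ∧ M ≤ x'.length) := by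
  obtain ⟨N, hN, n, P, w, -, -, rfl⟩ := hL
  let R : Fin (n + 1) → Bool ⊕ N → List (Bool ⊕ N) → Prop := fun h X y => (X, y) ∈ P h
  obtain ⟨C, hC⟩ := fin_bound (fun h C => ∀ r ∈ P h, r.2.length ≤ C)
    (fun _ _ _ h1 h2 r hr => (h2 r hr).trans h1)
    (fun h => ⟨_, fun r hr => Finset.le_sup (f := fun r => r.2.length) hr⟩)
  obtain ⟨B1, hB1⟩ := fin_bound (fun (π : Bool ⊕ N → Fin 2 → Prop) B => ∀ τ, ty R τ = π →
      ∃ τ', ∀ X j, π X j → ∃ z : List Bool, PD R τ' [X] (z.map .inl) ∧ z.count true = j ∧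
        z.length ≤ B)
    (fun π b b' h1 h2 τ hτ => (h2 τ hτ).imp fun τ' h3 X j h4 =>
      (h3 X j h4).imp fun z h5 => ⟨h5.1, h5.2.1, h5.2.2.trans h1⟩) (fun π => by
      by_cases h : ∃ τ, ty R τ = π
      · obtain ⟨τ, rfl⟩ := h
        obtain ⟨B, hB⟩ := fin_bound (fun (q : (Bool ⊕ N) × Fin 2) B => ty R τ q.1 q.2 →
          ∃ z : List Bool, PD R τ [q.1] (z.map .inl) ∧ z.count true = q.2 ∧ z.length ≤ B)
          (fun q b b' h1 h2 h3 => (h2 h3).imp fun z h5 => ⟨h5.1, h5.2.1, h5.2.2.trans h1⟩)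
          (fun q => by
            by_cases h : ty R τ q.1 q.2
            · obtain ⟨z, h1, h2⟩ := h
              exact ⟨_, fun _ => ⟨z, h1, h2, le_rfl⟩⟩
            · exact ⟨0, fun h1 => absurd h1 h⟩)
        exact ⟨B, fun _ _ => ⟨τ, fun X j => hB (X, j)⟩⟩
      · exact ⟨0, fun τ hτ => absurd ⟨τ, hτ⟩ h⟩)
  obtain ⟨B2, hB2⟩ := fin_bound (fun (q : (Bool ⊕ N → Fin 2 → Prop) × (Bool ⊕ N) × Fin 2) B =>
      (∀ τ (z : List Bool), ty R τ = q.1 → PD R τ [q.2.1] (z.map .inl) → z.count true = q.2.2 →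
        z.length ≤ B) ∨ ∀ M, ∃ τ, ∃ z : List Bool, ty R τ = q.1 ∧ PD R τ [q.2.1] (z.map .inl) ∧
          z.count true = q.2.2 ∧ M ≤ z.length)
    (fun q b b' h1 h2 => h2.imp_left fun h3 τ z a b c => (h3 τ z a b c).trans h1) (fun q => by
      by_contra h
      push Not at h
      obtain ⟨M, hM⟩ := (h 0).2
      obtain ⟨τ, z, a, b, c, d⟩ := (h M).1
      exact absurd (hM τ z a b c) (by omega))
  refine ⟨w.length + C * B1 + C * B2, fun x hx hc => ?_⟩
  obtain ⟨τ, l, rfl, a2, a3 | ⟨a3, m, a4, a5, a6⟩⟩ :=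
    level (R := R) (fun h X y h1 => hC h _ h1) hx
  · have := count_le l _ (fun p hp => (a2 p hp).2)
    rw [← a3, List.length_map] at hc
    omega
  have hty : ∀ p ∈ l, ∃ j : Fin 2, ty R τ p.1 j ∧ p.2.count true = j := fun p hp =>
    ⟨⟨_, Nat.lt_succ_of_le (a2 p hp).2⟩, ⟨_, (a2 p hp).1, rfl⟩, rfl⟩
  have fin : ∀ τ' (g : (Bool ⊕ N) × List Bool → List Bool),
      (∀ p ∈ l, PD R τ' [p.1] ((g p).map .inl) ∧ (g p).count true = p.2.count true) →
      l.flatMap g ∈ Lang (fun u v => u ≠ [] ∧ ∃ h, Par (fun _ => R h) [] u v) w ∧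
        (l.flatMap g).count true = (l.flatMap Prod.snd).count true := by
    intro τ' g hg
    have h1 := count_congr l g Prod.snd (fun p hp => (hg p hp).2)
    refine ⟨a3.trans (PD.reach (PD.glue l _ g (fun p hp => (hg p hp).1)) ?_).1, h1⟩
    intro h2
    rw [List.map_eq_nil_iff.1 h2] at h1
    simp only [List.count_nil] at h1
    omega
  constructor
  · obtain ⟨τ', h1⟩ := hB1 _ τ rfl
    have : ∀ p, ∃ z : List Bool, p ∈ l → (PD R τ' [p.1] (z.map .inl) ∧
        z.count true = p.2.count true) ∧ z.length ≤ B1 := by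
      intro p
      by_cases hp : p ∈ l
      · obtain ⟨j, h2, h3⟩ := hty p hp
        obtain ⟨z, h4, h5, h6⟩ := h1 _ _ h2
        exact ⟨z, fun _ => ⟨⟨h4, h5.trans h3.symm⟩, h6⟩⟩
      · exact ⟨[], fun h => absurd h hp⟩
    choose g hg using this
    obtain ⟨h2, h3⟩ := fin τ' g (fun p hp => (hg p hp).1)
    refine ⟨_, h2, h3, fun h4 => ?_⟩
    have h5 := h4 _ (infix_flatMap a4 g) (by
      rwa [count_congr m g Prod.snd (fun p hp => (hg p (a4.subset hp)).1.2)])
    have h6 := len_le m g B1 (fun p hp => (hg p (a4.subset hp)).2)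
    have := Nat.mul_le_mul_right B1 a5
    omega
  · intro h4 M
    have h5 := h4 _ (infix_flatMap a4 Prod.snd) a6
    obtain ⟨p0, hp0, h6⟩ : ∃ p ∈ m, B2 < p.2.length := by
      by_contra h
      push Not at h
      have h6 := len_le m Prod.snd B2 h
      have := Nat.mul_le_mul_right B2 a5
      omega
    obtain ⟨j0, -, h7⟩ := hty p0 (a4.subset hp0)
    obtain ⟨τ', z0, b1, b2, b3, b4⟩ := (hB2 (ty R τ, p0.1, j0)).resolve_left (fun h =>
      absurd (h τ p0.2 rfl (a2 p0 (a4.subset hp0)).1 h7) (by omega)) M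
    have : ∀ p, ∃ z : List Bool, p ∈ l → (PD R τ' [p.1] (z.map .inl) ∧
        z.count true = p.2.count true) ∧ (p = p0 → M ≤ z.length) := by
      intro p
      by_cases hp : p ∈ l
      · by_cases h0 : p = p0
        · exact ⟨z0, fun _ => ⟨h0 ▸ ⟨b2, b3.trans h7.symm⟩, fun _ => b4⟩⟩
        · obtain ⟨j, h2, h3⟩ := hty p hp
          rw [← show ty R τ' = ty R τ from b1] at h2
          obtain ⟨z, h4, h5⟩ := h2
          exact ⟨z, fun _ => ⟨⟨h4, h5.trans h3.symm⟩, fun h => absurd h h0⟩⟩
      · exact ⟨[], fun h => absurd h hp⟩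
    choose g hg using this
    obtain ⟨h2, h3⟩ := fin τ' g (fun p hp => (hg p hp).1)
    refine ⟨_, h2, h3, ((hg p0 (a4.subset hp0)).2 rfl).trans ?_⟩
    obtain ⟨s, t, h8⟩ := List.append_of_mem (a4.subset hp0)
    rw [h8]
    simp only [List.flatMap_append, List.flatMap_cons, List.length_append]
    omega

/-- Every block symbol is followed by `k` letters `false`. -/
def GB {N : Type} (k : ℕ) : List (Bool ⊕ N) → Prop
  | [] => True
  | s :: x => (s ≠ .inl false → List.replicate k (.inl false) <+: x) ∧ GB k x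

/-- Growth step. -/
inductive GR {N : Type} : List (Bool ⊕ N) → List (Bool ⊕ N) → Prop
  | nil : GR [] []
  | b {u v} : GR u v → GR (.inl false :: u) (.inl false :: v)
  | blk {u v} (X X') : X ≠ .inl false → GR u v → GR (X :: u) (X' :: .inl false :: v)

theorem GR.pre {N : Type} {u v : List (Bool ⊕ N)} (h : GR u v) :
    ∀ k, List.replicate k (.inl false) <+: u → List.replicate k (.inl false) <+: v := by
  induction h with
  | nil => exact fun _ h => h
  | b _ ih =>
    intro k h
    cases k with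
    | zero => simp
    | succ k => simpa [List.replicate_succ] using ih k (by simpa [List.replicate_succ] using h)
  | blk X X' hX _ _ =>
    intro k h
    cases k with
    | zero => simp
    | succ k => exact absurd (List.cons_prefix_cons.1 h).1.symm hX

theorem GR.gb {N : Type} {u v : List (Bool ⊕ N)} (h : GR u v) {k : ℕ} (hk : GB k u) :
    GB (k + 1) v := by
  induction h with
  | nil => trivial
  | b _ ih => exact ⟨fun h => absurd rfl h, ih hk.2⟩
  | blk X X' hX h ih =>
    exact ⟨fun _ => List.cons_prefix_cons.2 ⟨rfl, h.pre k (hk.1 hX)⟩, fun h => absurd rfl h, ih hk.2⟩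

theorem GB.zero {N : Type} (u : List (Bool ⊕ N)) : GB 0 u := by
  induction u with
  | nil => trivial
  | cons s u ih => exact ⟨by simp, ih⟩

theorem GB.mono {N : Type} {u : List (Bool ⊕ N)} {k k' : ℕ} (h : GB k u) (hk : k' ≤ k) :
    GB k' u := by
  induction u with
  | nil => trivial
  | cons s u ih =>
    refine ⟨fun h1 => List.IsPrefix.trans ?_ (h.1 h1), ih h.2⟩
    obtain ⟨i, rfl⟩ := Nat.exists_eq_add_of_le hk
    rw [List.replicate_add]
    exact List.prefix_append _ _

theorem GB.gap {N : Type} {x : List Bool} {k : ℕ} (h : GB k (x.map (.inl : Bool → Bool ⊕ N))) :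
    Gap k x := by
  rintro y ⟨a, b, rfl⟩ hy
  induction a with
  | cons s a ih => exact ih h.2
  | nil =>
    induction y with
    | nil => simp at hy
    | cons s y ih =>
      cases s with
      | false => exact (ih (by simpa using hy) h.2).trans (by simp)
      | true =>
        have h1 := h.1 (by simp)
        by_contra h2
        have h3 : y.map .inl <+: List.replicate k (.inl false : Bool ⊕ N) :=
          List.prefix_of_prefix_length_le (by simp) h1 (by
            simp only [List.length_cons, List.length_map, List.length_replicate] at h2 ⊢; omega)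
        have h4 : true ∈ y := by simpa using hy
        simpa using List.eq_of_mem_replicate (h3.subset (List.mem_map_of_mem h4))

end Pool.Agent.H.MP_7f9305_lc
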