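import Pool.Agent.H.MP_7f9305_lc.A

set_option autoImplicit false

namespace Pool.Agent.H.MP_7f9305_lc

open Relation

section Incl

variable {T N H : Type}

/-- Control symbols. -/
def ct (k : Option (Option H)) : T ⊕ (Option (Option H) ⊕ (T ⊕ N)) := .inr (.inl k)

/-- Primed symbols. -/
def pr (X : T ⊕ N) : T ⊕ (Option (Option H) ⊕ (T ⊕ N)) := .inr (.inr X)

/-- Rules of the simulating left permitting grammar. -/
def RS (P : H → Finset ((T ⊕ N) × List (T ⊕ N))) :
    Set ((T ⊕ (Option (Option H) ⊕ (T ⊕ N))) × List (T ⊕ (Option (Option H) ⊕ (T ⊕ N))) ×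
      Finset (Option (Option H) ⊕ (T ⊕ N))) :=
  Set.range (fun k : Option H × Option (Option H) => (ct (some k.1), [ct k.2], ∅)) ∪
    {(ct none, [], ∅)} ∪
    (⋃ h, (fun r : (T ⊕ N) × List (T ⊕ N) => (pr r.1, r.2.map pr, {.inl (some (some h))})) '' P h) ∪
    Set.range (fun X => (pr X, [pr X], {.inl (some none)})) ∪
    Set.range (fun a => (pr (.inl a), [.inl a], {.inl none}))

theorem RS_fin [Finite T] [Finite N] [Finite H] (P : H → Finset ((T ⊕ N) × List (T ⊕ N))) :
    (RS P).Finite :=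
  ((((Set.finite_range _).union (Set.finite_singleton _)).union
    (Set.finite_iUnion (fun h => (P h).finite_toSet.image _))).union
      (Set.finite_range _)).union (Set.finite_range _)

variable (P : H → Finset ((T ⊕ N) × List (T ⊕ N)))

/-- Rule test of the simulating grammar. -/
def ok1 (pre : List (T ⊕ (Option (Option H) ⊕ (T ⊕ N)))) (X : T ⊕ (Option (Option H) ⊕ (T ⊕ N)))
    (y : List (T ⊕ (Option (Option H) ⊕ (T ⊕ N)))) : Prop :=
  ∃ U, (X, y, U) ∈ RS P ∧ ∀ Z ∈ U, Sum.inr Z ∈ pre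

theorem ok1_cases {pre X y} (h : ok1 P pre X y) :
    (∃ k k', X = ct (some k) ∧ y = [ct k']) ∨ (X = ct none ∧ y = []) ∨
    (∃ h X0 y0, (X0, y0) ∈ P h ∧ X = pr X0 ∧ y = y0.map pr ∧ ct (some (some h)) ∈ pre) ∨
    (∃ X0, X = pr X0 ∧ y = [pr X0] ∧ ct (some none) ∈ pre) ∨
    ∃ a, X = pr (.inl a) ∧ y = [.inl a] ∧ ct none ∈ pre := by
  obtain ⟨U, h1, h2⟩ := h
  simp only [RS, Set.mem_union, Set.mem_iUnion] at h1
  rcases h1 with (((⟨k, h⟩ | h) | ⟨i, r, h3, h⟩) | ⟨X0, h⟩) | ⟨a, h⟩ <;> cases h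
  · exact Or.inl ⟨_, _, rfl, rfl⟩
  · exact Or.inr (Or.inl ⟨rfl, rfl⟩)
  · exact Or.inr (Or.inr (Or.inl ⟨i, r.1, r.2, h3, rfl, rfl, h2 _ (Finset.mem_singleton_self _)⟩))
  · exact Or.inr (Or.inr (Or.inr (Or.inl ⟨_, rfl, rfl, h2 _ (Finset.mem_singleton_self _)⟩)))
  · exact Or.inr (Or.inr (Or.inr (Or.inr ⟨_, rfl, rfl, h2 _ (Finset.mem_singleton_self _)⟩)))

/-- Result of a step under a control symbol. -/
def Res : Option (Option H) → List (T ⊕ N) → List (T ⊕ (Option (Option H) ⊕ (T ⊕ N))) → Prop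
  | some (some h), u, v => ∃ v0, v = v0.map pr ∧ Par (fun _ X y => (X, y) ∈ P h) [] u v0
  | some none, u, v => v = u.map pr
  | none, u, v => ∃ z : List T, u = z.map .inl ∧ v = z.map .inl

theorem res_of_par (k : Option (Option H)) (u : List (T ⊕ N)) : ∀ pre v,
    (∀ k', ct k' ∈ pre → k' = k) → Par (ok1 P) pre (u.map pr) v → Res P k u v := by
  induction u with
  | nil =>
    intro pre v _ h
    cases h
    rcases k with _ | _ | h
    exacts [⟨[], rfl, rfl⟩, rfl, ⟨[], rfl, Par.nil _⟩]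
  | cons X u ih =>
    intro pre v hk h
    cases h with
    | cons h1 h2 =>
      have h3 := ih _ _ (fun k' h => hk k' (by simpa [ct, pr] using h)) h2
      rcases ok1_cases P h1 with ⟨_, _, h, -⟩ | ⟨h, -⟩ | ⟨i, X0, y0, h4, h, rfl, h5⟩ |
        ⟨X0, h, rfl, h5⟩ | ⟨a, h, rfl, h5⟩ <;> cases h
      · obtain rfl := hk _ h5
        obtain ⟨v0, rfl, h6⟩ := h3
        exact ⟨y0 ++ v0, by simp, Par.cons h4 (h6.free _)⟩
      · obtain rfl := hk _ h5
        exact congrArg (List.cons _) h3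
      · obtain rfl := hk _ h5
        obtain ⟨z, rfl, rfl⟩ := h3
        exact ⟨a :: z, rfl, rfl⟩

theorem par_tab (h : H) {pre0 u v : List (T ⊕ N)}
    (hp : Par (fun _ X y => (X, y) ∈ P h) pre0 u v) :
    ∀ pre, ct (some (some h)) ∈ pre → Par (ok1 P) pre (u.map pr) (v.map pr) := by
  induction hp with
  | nil => exact fun _ _ => Par.nil _
  | cons h1 _ ih =>
    intro pre h2
    rw [List.map_append]
    exact Par.cons ⟨_, Or.inl (Or.inl (Or.inr (Set.mem_iUnion.2 ⟨h, _, h1, rfl⟩))),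
      by simpa [ct] using h2⟩ (ih _ (by simp [h2]))

theorem par_idle (u : List (T ⊕ N)) :
    ∀ pre, ct (some none) ∈ pre → Par (ok1 P) pre (u.map pr) (u.map pr) := by
  induction u with
  | nil => exact fun _ _ => Par.nil _
  | cons X u ih =>
    intro pre h2
    exact Par.cons (y := [_]) ⟨_, Or.inl (Or.inr ⟨X, rfl⟩), by simpa [ct] using h2⟩ (ih _ (by simp [h2]))

theorem par_fin (z : List T) :
    ∀ pre, ct none ∈ pre → Par (ok1 P) pre ((z.map .inl).map pr) (z.map .inl) := by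
  induction z with
  | nil => exact fun _ _ => Par.nil _
  | cons X u ih =>
    intro pre h2
    exact Par.cons (y := [_]) ⟨_, Or.inr ⟨X, rfl⟩, by simpa [ct] using h2⟩ (ih _ (by simp [h2]))

theorem ok_ct (k : Option H) (k' : Option (Option H)) : ok1 P [] (ct (some k)) [ct k'] :=
  ⟨_, Or.inl (Or.inl (Or.inl (Or.inl ⟨(k, k'), rfl⟩))), by simp⟩

end Incl

theorem et_lp {T : Type} [Finite T] {L : Set (List T)} (hL : IsET0L L) : IsLP L := by
  obtain ⟨N, hN, n, P, w, -, -, rfl⟩ := hL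
  refine ⟨_, inferInstance, (RS_fin P).toFinset, ct (some none) :: w.map pr, by simp, ?_⟩
  simp only [Set.Finite.mem_toFinset]
  ext x
  constructor
  · intro hx
    have key : ∀ u, ReflTransGen (fun u v => u ≠ [] ∧ ∃ h,
        Par (fun _ X y => (X, y) ∈ P h) [] u v) w u → ∀ k, ReflTransGen
          (fun u v => u ≠ [] ∧ Par (ok1 P) [] u v) (ct (some none) :: w.map pr) (ct k :: u.map pr) := by
      intro u hu
      induction hu with
      | refl =>
        exact fun k => ReflTransGen.single ⟨by simp, Par.cons (y := [_]) (ok_ct P _ _)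
          (par_idle P w _ (by simp))⟩
      | tail _ h1 ih =>
        obtain ⟨-, h, h1⟩ := h1
        exact fun k => (ih (some (some h))).tail ⟨by simp, Par.cons (y := [_]) (ok_ct P _ _)
          (par_tab P h h1 _ (by simp))⟩
    exact (key _ hx none).tail ⟨by simp, Par.cons (y := [])
      ⟨_, Or.inl (Or.inl (Or.inl (Or.inr rfl))), by simp⟩ (par_fin P x _ (by simp))⟩
  · intro hx
    have key : ∀ v, ReflTransGen (fun u v => u ≠ [] ∧ Par (ok1 P) [] u v)
        (ct (some none) :: w.map pr) v → ∃ u, ReflTransGen (fun u v => u ≠ [] ∧ ∃ h,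
          Par (fun _ X y => (X, y) ∈ P h) [] u v) w u ∧
            ((∃ k, v = ct k :: u.map pr) ∨ ∃ z : List T, u = z.map .inl ∧ v = z.map .inl) := by
      intro v hv
      induction hv with
      | refl => exact ⟨w, ReflTransGen.refl, Or.inl ⟨_, rfl⟩⟩
      | tail _ h1 ih =>
        obtain ⟨h1, h2⟩ := h1
        obtain ⟨u, h3, ⟨k, rfl⟩ | ⟨z, rfl, rfl⟩⟩ := ih
        · cases h2 with
          | cons h4 h5 =>
            have h6 := res_of_par P k u _ _ (by simp [ct]) h5
            rcases ok1_cases P h4 with ⟨k, k', h, rfl⟩ | ⟨h, rfl⟩ | ⟨_, _, _, _, h, -⟩ |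
              ⟨_, h, -⟩ | ⟨_, h, -⟩ <;> cases h
            · rcases k with _ | h
              · exact ⟨u, h3, Or.inl ⟨k', congrArg (List.cons _) h6⟩⟩
              · obtain ⟨v0, rfl, h7⟩ := h6
                by_cases hu : u = []
                · subst hu
                  cases h7
                  exact ⟨[], h3, Or.inl ⟨k', rfl⟩⟩
                · exact ⟨v0, h3.tail ⟨hu, h, h7⟩, Or.inl ⟨k', rfl⟩⟩
            · exact ⟨u, h3, Or.inr h6⟩
        · cases z with
          | nil => exact absurd rfl h1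
          | cons a z =>
            cases h2 with
            | cons h4 h5 =>
              rcases ok1_cases P h4 with ⟨_, _, h, -⟩ | ⟨h, -⟩ | ⟨_, _, _, _, h, -⟩ |
                ⟨_, h, -⟩ | ⟨_, h, -⟩ <;> cases h
    obtain ⟨u, h1, ⟨k, h2⟩ | ⟨z, rfl, h2⟩⟩ := key _ hx
    · cases x <;> simp [ct] at h2
    · rw [List.map_injective_iff.2 Sum.inl_injective h2]
      exact h1

end Pool.Agent.H.MP_7f9305_lc
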